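import Mathlib
import Pool.Agent.Helper892.EL.ManyF

/-!
# Vojta's inequality on products of elliptic curves: the error term outside every closed set

Let `E_i : y² = x³ + a_i x + b_i` (`1 ≤ i ≤ n`) be elliptic curves over a number field `k` with `r_i ≥ 1`
independent points in `E_i(k)`, `X = E_1 × … × E_n`, `D = ∑ pr_i^* O` (ample, with normal crossings;
`K_X = 0`), and let `S` be any nonempty finite set of places of `k`. The inequality `m_{S,D}(P) ≤ ε h_D(P) + O(1)` of the conjecture is known here (Faltings).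

The theorem: outside every proper closed subset `Z` of `X` there are points `P ∈ X(k)` of arbitrarily
large height with `m_{S,D}(P) ≥ R / (2 [k : ℚ]) log h_D(P) - C(Z)`, `R = ∑ r_i`. So the term `ε h_A(P)`
in the conjecture cannot be replaced by `c log h_A(P)` with `c < R / (2 [k : ℚ])`, whatever `Z` is;
`R = rank X(k)` when the points generate the `E_i(k)` up to torsion.

`Z` enters through a polynomial `G ≠ 0` in the abscissas: as `X → (ℙ¹)ⁿ` is finite, every proper closed
subset of `X` is contained in the union of the zero set of some `G(x(P_1), …, x(P_n))` and of `D`.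

Proof: on one curve the combinations `∑ n_i Q_i`, `0 ≤ n_i < N`, have heights `O(N²)` by one half of the
parallelogram law. At least one half of them, after a translation by `Q_1`, are not close to the points
of order two at the place `v`; by the box principle `m` of these have abscissas at the distance
`‖x - x'‖_v = O(N ^ (-r))` from each other (`v` infinite: boxes in `k_v`; `v` finite: classes modulo a
power of the prime). The sum or difference of two of them is close to `O`: the
product of the two abscissas is large by an identity for the abscissas of `P + Q`, `P - Q`, and one of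
them is bounded. So for each large `N` there are more than `deg G` abscissas of points with
`h(x(P)) ≤ C₁ N²`, `log ‖x(P)‖_v ≥ 2 r log N - C`, and `G` does not vanish on all `n`-tuples of these.
-/

set_option autoImplicit false

open NumberField IsDedekindDomain WeierstrassCurve

namespace Pool.Agent.Results.MP_17a322_nt.EllipticProductErrorTerm

variable {k : Type} [Field k] [NumberField k] {W : WeierstrassCurve k}

/-- The local height `λ_{O,v}(P) = 1/2 log max (|x(P)|_v, 1)` of the point `P ≠ O` for the divisor `O`;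
`P.xRep = (x(P), 1)`. -/
noncomputable def localHeight (v : AbsoluteValue k ℝ) (P : W.toAffine.Point) : ℝ :=
  Real.log (max (v (P.xRep 0)) (v (P.xRep 1))) / 2

/-- The proximity function `m_{S,O}(P)`, where `S` consists of the infinite places in `T` and of the
primes in `S'`; `|π|_p = 1 / N(p)` at a prime. -/
noncomputable def proximity (T : Finset (InfinitePlace k)) (S' : Finset (HeightOneSpectrum (𝓞 k)))
    (P : W.toAffine.Point) : ℝ :=
  (∑ v ∈ T, (v.mult : ℝ) * localHeight v.1 P +
    ∑ p ∈ S', localHeight (HeightOneSpectrum.adicAbv k p) P) / Module.finrank ℚ k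

/-- The absolute logarithmic height `h_O(P) = 1/2 h(x(P))`. -/
noncomputable def height (P : W.toAffine.Point) : ℝ :=
  Height.logHeight P.xRep / (2 * Module.finrank ℚ k)

variable {n : ℕ} {V : Fin n → WeierstrassCurve k}

/-- The proximity function `m_{S,D}` on `E_1 × … × E_n` for `D = ∑ pr_i^* O`. -/
noncomputable def proximityD (T : Finset (InfinitePlace k)) (S' : Finset (HeightOneSpectrum (𝓞 k)))
    (P : ∀ i, (V i).toAffine.Point) : ℝ :=
  ∑ i, proximity T S' (P i)

/-- The height `h_D` on `E_1 × … × E_n` for `D = ∑ pr_i^* O`. -/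
noncomputable def heightD (P : ∀ i, (V i).toAffine.Point) : ℝ :=
  ∑ i, height (P i)

lemma hx_height (P : W.toAffine.Point) :
    Pool.Agent.Helper892.EL.hx P = 2 * Module.finrank ℚ k * height P := by
  have hd0 : (0 : ℝ) < Module.finrank ℚ k := by
    have : 0 < Module.finrank ℚ k := Module.finrank_pos
    exact_mod_cast this
  unfold height Pool.Agent.Helper892.EL.hx
  field_simp

lemma localHeight_nonneg (v : AbsoluteValue k ℝ) {P : W.toAffine.Point} (hP : P ≠ 0) :
    0 ≤ localHeight v P := by
  classical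
  unfold localHeight
  have h5 : (1 : ℝ) ≤ max (v (P.xRep 0)) (v (P.xRep 1)) := by
    rw [Pool.Agent.Helper892.EL.xRep_one hP, map_one]
    exact le_max_right _ _
  have := Real.log_nonneg h5
  linarith

lemma prox (T : Finset (InfinitePlace k)) (S' : Finset (HeightOneSpectrum (𝓞 k)))
    {w : InfinitePlace k} (hwT : w ∈ T) {P : W.toAffine.Point} (hP : P ≠ 0) :
    w.mult * Real.log (Pool.Agent.Helper892.EL.lx w.1 P) / (2 * Module.finrank ℚ k) ≤
      proximity T S' P := by
  set d : ℝ := (Module.finrank ℚ k : ℝ) with hd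
  have hd0 : 0 < d := by
    have : 0 < Module.finrank ℚ k := Module.finrank_pos
    rw [hd]
    exact_mod_cast this
  have hlocal := fun v : AbsoluteValue k ℝ => localHeight_nonneg v hP
  have h7 : (w.mult : ℝ) * localHeight w.1 P ≤ ∑ v ∈ T, (v.mult : ℝ) * localHeight v.1 P :=
    Finset.single_le_sum (f := fun v : InfinitePlace k => (v.mult : ℝ) * localHeight v.1 P)
      (fun v _ => mul_nonneg (Nat.cast_nonneg _) (hlocal v.1)) hwT
  have h10 : 0 ≤ ∑ p ∈ S', localHeight (HeightOneSpectrum.adicAbv k p) P :=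
    Finset.sum_nonneg fun p _ => hlocal _
  have h11 : localHeight w.1 P = Real.log (Pool.Agent.Helper892.EL.lx w.1 P) / 2 := rfl
  have h12 : (w.mult : ℝ) * localHeight w.1 P / d ≤ proximity T S' P := by
    unfold proximity
    rw [← hd]
    exact div_le_div_of_nonneg_right (by linarith) hd0.le
  rw [h11] at h12
  refine le_trans (le_of_eq ?_) h12
  field_simp

lemma proxF (T : Finset (InfinitePlace k)) (S' : Finset (HeightOneSpectrum (𝓞 k)))
    {p : HeightOneSpectrum (𝓞 k)} (hp : p ∈ S') {P : W.toAffine.Point} (hP : P ≠ 0) :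
    Real.log (Pool.Agent.Helper892.EL.lx (HeightOneSpectrum.adicAbv k p) P) /
      (2 * Module.finrank ℚ k) ≤ proximity T S' P := by
  set d : ℝ := (Module.finrank ℚ k : ℝ) with hd
  have hd0 : 0 < d := by
    have : 0 < Module.finrank ℚ k := Module.finrank_pos
    rw [hd]
    exact_mod_cast this
  have hlocal := fun v : AbsoluteValue k ℝ => localHeight_nonneg v hP
  have h7 : localHeight (HeightOneSpectrum.adicAbv k p) P ≤
      ∑ p ∈ S', localHeight (HeightOneSpectrum.adicAbv k p) P :=
    Finset.single_le_sum (f := fun p => localHeight (HeightOneSpectrum.adicAbv k p) P)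
      (fun v _ => hlocal _) hp
  have h10 : 0 ≤ ∑ v ∈ T, (v.mult : ℝ) * localHeight v.1 P :=
    Finset.sum_nonneg fun v _ => mul_nonneg (Nat.cast_nonneg _) (hlocal v.1)
  have h11 : localHeight (HeightOneSpectrum.adicAbv k p) P =
    Real.log (Pool.Agent.Helper892.EL.lx (HeightOneSpectrum.adicAbv k p) P) / 2 := rfl
  have h12 : localHeight (HeightOneSpectrum.adicAbv k p) P / d ≤ proximity T S' P := by
    unfold proximity
    rw [← hd]
    exact div_le_div_of_nonneg_right (by linarith) hd0.le
  rw [h11] at h12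
  refine le_trans (le_of_eq ?_) h12
  field_simp

/-- one place in `S` -/
lemma key [DecidableEq k] (T : Finset (InfinitePlace k)) (S' : Finset (HeightOneSpectrum (𝓞 k)))
    (hS : T.Nonempty ∨ S'.Nonempty) : ∃ (v : AbsoluteValue k ℝ) (u : ℝ),
    (∀ (W : WeierstrassCurve k) [W.IsElliptic], Pool.Agent.Helper892.EL.Short W → ∀ (r : ℕ),
      1 ≤ r → ∀ Q : Fin r → W.toAffine.Point, LinearIndependent ℤ Q → ∀ k0 : ℕ,
      ∃ C C1 : ℝ, 0 ≤ C1 ∧ ∃ N0 : ℕ, ∀ N : ℕ, N0 ≤ N → ∃ s : Finset k, k0 < s.card ∧
        ∀ x ∈ s, ∃ P : W.toAffine.Point, P ≠ 0 ∧ P.xRep 0 = x ∧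
          Pool.Agent.Helper892.EL.hx P ≤ C1 * N ^ 2 ∧
          2 * (r : ℝ) * Real.log N - C ≤ u * Real.log (Pool.Agent.Helper892.EL.lx v P)) ∧
    (∀ (W : WeierstrassCurve k) (P : W.toAffine.Point), P ≠ 0 →
      u * Real.log (Pool.Agent.Helper892.EL.lx v P) ≤ 2 * Pool.Agent.Helper892.EL.hx P) ∧
    (∀ (W : WeierstrassCurve k) (P : W.toAffine.Point), P ≠ 0 →
      u * Real.log (Pool.Agent.Helper892.EL.lx v P) / (2 * Module.finrank ℚ k) ≤
        proximity T S' P) := by
  rcases hS with ⟨w, hw⟩ | ⟨p, hp⟩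
  · refine ⟨w.1, w.mult, ?_, ?_, ?_⟩
    · intro W _ hW r hr Q hQ k0
      exact Pool.Agent.Helper892.EL.manyA hW w hr Q hQ k0
    · intro W P hP
      have h4 := Pool.Agent.Helper892.EL.log_lx_le w hP
      have h5 : 0 ≤ Real.log (Pool.Agent.Helper892.EL.lx w.1 P) :=
        Real.log_nonneg (Pool.Agent.Helper892.EL.lx_one w.1 hP)
      have h6 : (w.mult : ℝ) ≤ 2 := by
        have : w.mult ≤ 2 := by
          unfold InfinitePlace.mult
          split_ifs <;> omega
        exact_mod_cast this
      nlinarith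
    · intro W P hP
      exact prox T S' hw hP
  · refine ⟨HeightOneSpectrum.adicAbv k p, 1, ?_, ?_, ?_⟩
    · intro W _ hW r hr Q hQ k0
      obtain ⟨ρ, rfl⟩ : ∃ ρ, r = ρ + 1 := ⟨r - 1, by omega⟩
      obtain ⟨C, C1, hC1, N0, h⟩ := Pool.Agent.Helper892.EL.manyF hW p Q
        (fun n hn => funext (Fintype.linearIndependent_iff.1 hQ n hn)) k0
      refine ⟨C, C1, hC1, N0, fun N hN => ?_⟩
      obtain ⟨s, hs, hsP⟩ := h N hN
      refine ⟨s, hs, fun x hx => ?_⟩
      obtain ⟨P, h1, h2, h3, h4⟩ := hsP x hx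
      refine ⟨P, h1, h2, h3, ?_⟩
      rw [one_mul]
      push_cast
      exact h4
    · intro W P hP
      have h4 := Pool.Agent.Helper892.EL.log_lxF_le p hP
      have h5 := Pool.Agent.Helper892.EL.hx_nonneg P
      linarith
    · intro W P hP
      rw [one_mul]
      exact proxF T S' hp hP

/-- **The error term in Vojta's inequality for products of elliptic curves, outside every closed
set.** Let `E_i : y² = x³ + a_i x + b_i`, `1 ≤ i ≤ n`, be elliptic curves over the number field `k`, with
`r_i ≥ 1` independent points in `E_i(k)`, `S` a nonempty finite set of places, and `G ≠ 0` a polynomial in `n ≥ 1` variables over `k`. There is a constant `C` such that there are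
points `P = (P_1, …, P_n)` in `E_1(k) × … × E_n(k)` of arbitrarily large height, with `P_i ≠ O` and
`G(x(P_1), …, x(P_n)) ≠ 0`, such that
`m_{S,D}(P) + h_K(P) ≥ (r_1 + … + r_n) / (2 [k : ℚ]) log h_D(P) - C`, where `D = ∑ pr_i^* O` and
`h_K = 0`. -/
theorem result [DecidableEq k] (hn : 1 ≤ n) [∀ i, (V i).IsElliptic] (h1 : ∀ i, (V i).a₁ = 0)
    (h2 : ∀ i, (V i).a₂ = 0) (h3 : ∀ i, (V i).a₃ = 0)
    (r : Fin n → ℕ) (hr : ∀ i, 1 ≤ r i) (Q : ∀ i, Fin (r i) → (V i).toAffine.Point)
    (hQ : ∀ i, LinearIndependent ℤ (Q i))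
    (T : Finset (InfinitePlace k)) (S' : Finset (HeightOneSpectrum (𝓞 k)))
    (hS : T.Nonempty ∨ S'.Nonempty) (G : MvPolynomial (Fin n) k) (hG : G ≠ 0) :
    ∃ C : ℝ, ∀ B : ℝ, ∃ P : ∀ i, (V i).toAffine.Point, (∀ i, P i ≠ 0) ∧
      MvPolynomial.eval (fun i => (P i).xRep 0) G ≠ 0 ∧ B ≤ heightD P ∧
      (∑ i, (r i : ℝ)) / (2 * Module.finrank ℚ k) * Real.log (heightD P) - C ≤
        proximityD T S' P := by
  obtain ⟨v, u, hkey, hkey1, hkey2⟩ := key T S' hS
  choose C C1 hC10 N0 hmany using fun i => hkey (V i) ⟨h1 i, h2 i, h3 i⟩ (r i) (hr i)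
    (Q i) (hQ i) G.totalDegree
  have hdn : 0 < Module.finrank ℚ k := Module.finrank_pos
  set d : ℝ := (Module.finrank ℚ k : ℝ) with hd
  have hd0 : 0 < d := by
    rw [hd]
    exact_mod_cast hdn
  set R : ℝ := ∑ i, (r i : ℝ) with hR
  have hR0 : 0 ≤ R := Finset.sum_nonneg fun i _ => Nat.cast_nonneg _
  have hC1s : 0 ≤ ∑ i, C1 i := Finset.sum_nonneg fun i _ => hC10 i
  refine ⟨R / (2 * d) * Real.log ((∑ i, C1 i + 1) / (2 * d)) + (∑ i, C i) / (2 * d),
    fun B => ?_⟩
  obtain ⟨N, hN⟩ := exists_nat_ge (max (max ((∑ i, N0 i : ℕ) : ℝ) 1)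
    (Real.exp (max (4 * d * B) 1 + ∑ i, |C i|)))
  have hNN0' : ∑ i, N0 i ≤ N := by
    exact_mod_cast ((le_max_left _ _).trans (le_max_left _ _)).trans hN
  have hNN0 : ∀ i, N0 i ≤ N := fun i =>
    (Finset.single_le_sum (fun j _ => Nat.zero_le (N0 j)) (Finset.mem_univ i)).trans hNN0'
  have hNr : (1 : ℝ) ≤ N := ((le_max_right _ _).trans (le_max_left _ _)).trans hN
  have hlN : max (4 * d * B) 1 + ∑ i, |C i| ≤ Real.log N := by
    rw [Real.le_log_iff_exp_le (by linarith)]
    exact (le_max_right _ _).trans hN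
  choose s hs hsP using fun i => hmany i N (hNN0 i)
  -- a tuple outside the zero set of `G`
  obtain ⟨x, hxs, hxG⟩ : ∃ x : Fin n → k, (∀ i, x i ∈ s i) ∧ MvPolynomial.eval x G ≠ 0 := by
    by_contra hcon
    push Not at hcon
    exact hG (MvPolynomial.eq_zero_of_eval_zero_at_prod_finset G s
      (fun i => lt_of_le_of_lt (MvPolynomial.degreeOf_le_totalDegree G i) (hs i)) hcon)
  choose P hP0 hPx hPh hPl using fun i => hsP i (x i) (hxs i)
  have hlN0 : (0 : ℝ) ≤ Real.log N := Real.log_nonneg hNr
  have hmult : ∀ i, u * Real.log (Pool.Agent.Helper892.EL.lx v (P i)) ≤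
      2 * (2 * d * height (P i)) := by
    intro i
    rw [hd, ← hx_height]
    exact hkey1 (V i) (P i) (hP0 i)
  have hlo : ∀ i, max (4 * d * B) 1 ≤ 2 * (2 * d * height (P i)) := by
    intro i
    refine le_trans ?_ (hmult i)
    refine le_trans ?_ (hPl i)
    have h4 : C i ≤ ∑ j, |C j| := (le_abs_self _).trans
      (Finset.single_le_sum (f := fun j => |C j|) (fun j _ => abs_nonneg _) (Finset.mem_univ i))
    have h6 : Real.log N ≤ 2 * (r i : ℝ) * Real.log N := by
      have : (1 : ℝ) ≤ r i := by exact_mod_cast hr i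
      nlinarith
    linarith
  have hup : ∀ i, height (P i) ≤ C1 i * N ^ 2 / (2 * d) := by
    intro i
    rw [le_div_iff₀ (by positivity)]
    have h4 := hPh i
    rw [hx_height, ← hd] at h4
    linarith
  have hpos : ∀ i, 0 < height (P i) := by
    intro i
    have h4 := (le_max_right _ _).trans (hlo i)
    by_contra hneg
    push Not at hneg
    nlinarith
  have : Nonempty (Fin n) := ⟨⟨0, hn⟩⟩
  have hHpos : 0 < heightD P := Finset.sum_pos (fun i _ => hpos i) Finset.univ_nonempty
  have hHup : heightD P ≤ (∑ i, C1 i + 1) / (2 * d) * N ^ 2 := by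
    have h4 : heightD P ≤ ∑ i, C1 i * (N : ℝ) ^ 2 / (2 * d) :=
      Finset.sum_le_sum fun i _ => hup i
    rw [← Finset.sum_div, ← Finset.sum_mul] at h4
    refine h4.trans ?_
    rw [div_mul_eq_mul_div]
    refine div_le_div_of_nonneg_right ?_ (by positivity)
    have h6 : (0 : ℝ) ≤ (N : ℝ) ^ 2 := by positivity
    nlinarith
  refine ⟨P, hP0, ?_, ?_, ?_⟩
  · have h4 : (fun i => (P i).xRep 0) = x := funext hPx
    rw [h4]
    exact hxG
  · have h4 : height (P ⟨0, hn⟩) ≤ heightD P :=
      Finset.single_le_sum (f := fun i => height (P i)) (fun i _ => (hpos i).le)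
        (Finset.mem_univ _)
    refine le_trans ?_ h4
    have h5 := (le_max_left _ _).trans (hlo ⟨0, hn⟩)
    refine le_of_mul_le_mul_left (a := 4 * d) ?_ (by positivity)
    linarith
  · have h4 : ∑ i, (2 * (r i : ℝ) * Real.log N - C i) / (2 * d) ≤ proximityD T S' P := by
      refine Finset.sum_le_sum fun i _ => ?_
      refine le_trans ?_ (hkey2 (V i) (P i) (hP0 i))
      exact div_le_div_of_nonneg_right (hPl i) (by positivity)
    rw [← Finset.sum_div, Finset.sum_sub_distrib, ← Finset.sum_mul, ← Finset.mul_sum, ← hR] at h4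
    refine le_trans ?_ h4
    have h5 : Real.log (heightD P) ≤ Real.log ((∑ i, C1 i + 1) / (2 * d)) + 2 * Real.log N := by
      have h6 := Real.log_le_log hHpos hHup
      rw [Real.log_mul (by positivity) (by positivity), Real.log_pow] at h6
      push_cast at h6
      exact h6
    have h7 : R / (2 * d) * Real.log (heightD P) ≤
        R / (2 * d) * (Real.log ((∑ i, C1 i + 1) / (2 * d)) + 2 * Real.log N) :=
      mul_le_mul_of_nonneg_left h5 (by positivity)
    have h8 : (2 * R * Real.log N - ∑ i, C i) / (2 * d) =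
        R / (2 * d) * (2 * Real.log N) - (∑ i, C i) / (2 * d) := by
      field_simp
    rw [h8]
    rw [mul_add] at h7
    linarith

end Pool.Agent.Results.MP_17a322_nt.EllipticProductErrorTerm
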