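import Mathlib
import Pool.Agent.Helper892.SE.Main

/-!
# The error term in Vojta's conjecture for projective spaces grows with the set of places

`k` is any number field, `X = ℙ^n`, `D = {x_0 ⋯ x_n F(x) = 0}` where `F` is a form of degree `d` with a
zero of multiplicity at least `μ ≥ 1` at the point `(1 : … : 1)`. For example, `F` is a product of
`μ ≤ n` linear forms with zero sum of coefficients, and `D` is a sum of `n + 1 + μ` hyperplanes in
general position. (Any `n + 2` hyperplanes in general position have this shape in suitable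
coordinates, with `d = μ = 1`.) For such `D` the conjecture is the subspace theorem of Schmidt.

The theorem: if `S` consists of the infinite places and at least one prime and `|S| ≥ 3`, then for
every proper closed subset `Z` of `ℙ^n` there are points `P` outside `Z`, of arbitrarily large height,
with `m_{S,D}(P) + h_K(P) ≥ μ (|S| - 2) log h(P) - O(1)`. So the term `ε h_A(P)` in the conjecture
cannot be replaced by `c log h_A(P)` with a constant `c` which does not depend on `S`, whatever the
exceptional set.

Proof: products of `S`-units which are congruent modulo a high power of a prime in `S`. There are so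
many of them, by the pigeonhole principle, that the polynomial which defines `Z` does not vanish at
all tuples of them (the combinatorial Nullstellensatz).
-/

set_option autoImplicit false

open NumberField IsDedekindDomain MvPolynomial

namespace Pool.Agent.Results.MP_17a322_nt.SubspaceErrorTerm

variable {k : Type} [Field k] [NumberField k] {n : ℕ}

/-- The local height `λ_{D,v}(x) = log (max |x_i|_v ^ deg F / |F(x)|_v)` of the point
`x = (x_0 : … : x_n)` for the hypersurface `D : F = 0` of `ℙ^n` and the absolute value `v`. -/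
noncomputable def localHeight (v : AbsoluteValue k ℝ) (F : MvPolynomial (Fin (n + 1)) k)
    (x : Fin (n + 1) → k) : ℝ :=
  F.totalDegree * Real.log (⨆ i, v (x i)) - Real.log (v (eval x F))

/-- The proximity function `m_{S,D}(x)` for the hypersurface `D : F = 0` of `ℙ^n`, relative to `k`
(like the height `Height.logHeight`, it is not divided by `[k : ℚ]`). The set of places consists of
all infinite places of `k` and the primes in `S`; at a prime `|π|_p = 1 / N(p)`. -/
noncomputable def proximity (S : Finset (HeightOneSpectrum (𝓞 k)))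
    (F : MvPolynomial (Fin (n + 1)) k) (x : Fin (n + 1) → k) : ℝ :=
  ∑ v : InfinitePlace k, (v.mult : ℝ) * localHeight v.1 F x +
    ∑ p ∈ S, localHeight (HeightOneSpectrum.adicAbv k p) F x

/-- The ideal of the point `(1 : … : 1)`. -/
noncomputable def pointIdeal (k : Type) [Field k] (n : ℕ) : Ideal (MvPolynomial (Fin (n + 1)) k) :=
  Ideal.span (Set.range fun i : Fin (n + 1) => X i - X 0)

/-- **The error term in Vojta's conjecture for projective spaces grows with the set of places.**
Let `k` be a number field, `F` a form of degree `d` over `k` with a zero of multiplicity at least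
`μ ≥ 1` at `(1 : … : 1)`, `D` the divisor `x_0 ⋯ x_n F(x) = 0` of `ℙ^n` and `S` a set of places which
consists of all infinite places and a finite nonempty set of primes, `|S| ≥ 3`. For every nonzero `G`
there is a constant `C` such that there are points `x` of `ℙ^n(k)` of arbitrarily large height, with
nonzero coordinates and with `F(x) ≠ 0`, `G(x) ≠ 0`, such that
`m_{S,D}(x) + h_K(x) ≥ μ (|S| - 2) log h(x) - C`, where `h_K = - (n + 1) h`. -/
theorem result (μ d : ℕ) (hμ : 1 ≤ μ) (F : MvPolynomial (Fin (n + 1)) k) (hF0 : F ≠ 0)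
    (hFd : F.IsHomogeneous d) (hF : F ∈ pointIdeal k n ^ μ)
    (S : Finset (HeightOneSpectrum (𝓞 k))) (hS : S.Nonempty)
    (hS3 : 3 ≤ Fintype.card (InfinitePlace k) + S.card)
    (G : MvPolynomial (Fin (n + 1)) k) (hG : G ≠ 0) :
    ∃ C : ℝ, ∀ B : ℝ, ∃ x : Fin (n + 1) → k, (∀ i, x i ≠ 0) ∧ eval x F ≠ 0 ∧ eval x G ≠ 0 ∧
      B ≤ Height.logHeight x ∧
      μ * ((Fintype.card (InfinitePlace k) : ℝ) + S.card - 2) * Real.log (Height.logHeight x) - C ≤
        proximity S ((∏ i, X i) * F) x + (-(n + 1 : ℝ)) * Height.logHeight x := by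
  obtain ⟨p, hp⟩ := hS
  obtain ⟨C, hC⟩ := Pool.Agent.Helper892.SE.main μ d hμ F hF0 hFd hF S p hp hS3 G hG
  refine ⟨C, fun B => ?_⟩
  obtain ⟨x, hx0, hxS, hxF, hxG, hxB, hx⟩ := hC B
  refine ⟨x, hx0, hxF, hxG, hxB, hx.trans (le_of_eq ?_)⟩
  have hprod0 : (∏ i : Fin (n + 1), (X i : MvPolynomial (Fin (n + 1)) k)) ≠ 0 :=
    Finset.prod_ne_zero_iff.2 fun i _ => X_ne_zero i
  have hhom : ((∏ i : Fin (n + 1), (X i : MvPolynomial (Fin (n + 1)) k)) * F).IsHomogeneous
      ((n + 1) + d) := by
    refine IsHomogeneous.mul ?_ hFd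
    have h1 := IsHomogeneous.prod Finset.univ (fun i => (X i : MvPolynomial (Fin (n + 1)) k))
      (fun _ => 1) (fun i _ => isHomogeneous_X k i)
    simpa using h1
  have hdeg : ((∏ i : Fin (n + 1), (X i : MvPolynomial (Fin (n + 1)) k)) * F).totalDegree =
      (n + 1) + d := hhom.totalDegree (mul_ne_zero hprod0 hF0)
  have hloc : ∀ v : AbsoluteValue k ℝ,
      localHeight v ((∏ i : Fin (n + 1), (X i : MvPolynomial (Fin (n + 1)) k)) * F) x =
      ((n + 1 : ℝ) * Real.log (⨆ i, v (x i)) - ∑ i, Real.log (v (x i))) +
        (d * Real.log (⨆ i, v (x i)) - Real.log (v (eval x F))) := by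
    intro v
    unfold localHeight
    rw [hdeg, map_mul, map_prod, map_mul, map_prod]
    simp only [eval_X]
    rw [Real.log_mul (Finset.prod_ne_zero_iff.2 fun i _ => v.ne_zero (hx0 i)) (v.ne_zero hxF),
      Real.log_prod (fun i _ => v.ne_zero (hx0 i))]
    push_cast
    ring
  have e1 : proximity S ((∏ i : Fin (n + 1), (X i : MvPolynomial (Fin (n + 1)) k)) * F) x =
      Pool.Agent.Helper892.SE.SS S (fun v =>
        ((n + 1 : ℝ) * Real.log (⨆ i, v (x i)) - ∑ i, Real.log (v (x i))) +
        (d * Real.log (⨆ i, v (x i)) - Real.log (v (eval x F)))) := by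
    unfold proximity Pool.Agent.Helper892.SE.SS
    simp only [hloc]
    rfl
  have e2 : Pool.Agent.Helper892.SE.SS S (fun v => ∑ i, Real.log (v (x i))) = 0 := by
    rw [Pool.Agent.Helper892.SE.SS_sum Finset.univ S (fun i v => Real.log (v (x i)))]
    exact Finset.sum_eq_zero fun i _ =>
      Pool.Agent.Helper892.SE.prod_formula S (x i) (hx0 i) fun q hq => hxS q hq i
  have e3 : Height.logHeight x =
      Pool.Agent.Helper892.SE.SS S (fun v => Real.log (⨆ i, v (x i))) :=
    Pool.Agent.Helper892.SE.logHeight_units S x hx0 hxS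
  have e4 := Pool.Agent.Helper892.SE.SS_add S
    (fun v => (n + 1 : ℝ) * Real.log (⨆ i, v (x i)) - ∑ i, Real.log (v (x i)))
    (fun v => d * Real.log (⨆ i, v (x i)) - Real.log (v (eval x F)))
  have e5 := Pool.Agent.Helper892.SE.SS_sub S (fun v => (n + 1 : ℝ) * Real.log (⨆ i, v (x i)))
    (fun v => ∑ i, Real.log (v (x i)))
  have e6 := Pool.Agent.Helper892.SE.SS_mul S (n + 1 : ℝ) (fun v => Real.log (⨆ i, v (x i)))
  rw [e1, e4, e5, e2, e6, ← e3]
  ring

end Pool.Agent.Results.MP_17a322_nt.SubspaceErrorTerm
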